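import Mathlib
import Pool.Agent.S01371
import Pool.Agent.Helper605.TraceR

set_option autoImplicit false

/-!
# Shift equivalence of integer matrices to primitive matrices

Every `2 × 2` integer matrix with irrational eigenvalues whose nonzero spectrum satisfies the Perron
condition (P) and the net trace condition (NT) is shift equivalent over `ℤ` to a primitive integer
matrix.  The same is proved for integer matrices of every size, without a condition on the
rationality of the eigenvalues.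
-/

namespace Pool.Agent.Results.MP_873b83_al.WeakSpectralConjecture

open Matrix

/-- The nonzero spectrum of an integer matrix: the multiset of its nonzero complex eigenvalues. -/
noncomputable def spec {m : ℕ} (A : Matrix (Fin m) (Fin m) ℤ) : Multiset ℂ :=
  (A.map (fun x : ℤ => (x : ℂ))).charpoly.roots.filter (fun z => z ≠ 0)

/-- Condition (P): some positive real number occurs once in the list and exceeds the absolute value of
every other entry. -/
def CondP (Λ : Multiset ℂ) : Prop :=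
  ∃ r : ℝ, 0 < r ∧ Λ.count (r : ℂ) = 1 ∧ ∀ z ∈ Λ, z ≠ (r : ℂ) → ‖z‖ < r

/-- The power sum `tr(Λ^n)`. -/
noncomputable def tr (Λ : Multiset ℂ) (n : ℕ) : ℂ := (Λ.map (fun z => z ^ n)).sum

/-- The net trace `tr_n(Λ) = ∑_{d ∣ n} μ(n / d) tr(Λ^d)`. -/
noncomputable def netTr (Λ : Multiset ℂ) (n : ℕ) : ℂ :=
  ∑ d ∈ n.divisors, ((ArithmeticFunction.moebius (n / d) : ℤ) : ℂ) * tr Λ d

/-- Condition (NT): the net traces (they are real for an integer matrix) are nonnegative. -/
def CondNT (Λ : Multiset ℂ) : Prop := ∀ n : ℕ, 1 ≤ n → 0 ≤ (netTr Λ n).re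

/-- An integer matrix is primitive if it has nonnegative entries and some power has positive
entries. -/
def Primitive {p : ℕ} (B : Matrix (Fin p) (Fin p) ℤ) : Prop :=
  0 < p ∧ (∀ i j, 0 ≤ B i j) ∧ ∃ k : ℕ, 0 < k ∧ ∀ i j, 0 < (B ^ k) i j

/-- Shift equivalence over `ℤ`. -/
def ShiftEquiv {m n : ℕ} (A : Matrix (Fin m) (Fin m) ℤ) (B : Matrix (Fin n) (Fin n) ℤ) : Prop :=
  ∃ (R : Matrix (Fin m) (Fin n) ℤ) (S : Matrix (Fin n) (Fin m) ℤ) (l : ℕ), 1 ≤ l ∧
    A * R = R * B ∧ S * A = B * S ∧ R * S = A ^ l ∧ S * R = B ^ l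

/-- real matrices with integer entries come from integer matrices -/
lemma exists_int {m n : ℕ} (A : Matrix (Fin m) (Fin n) ℝ) (h : ∀ i j, A i j ∈ (⊥ : Subring ℝ)) :
    ∃ A' : Matrix (Fin m) (Fin n) ℤ, A'.map (Int.castRingHom ℝ) = A := by
  have h1 : ∀ i j, ∃ z : ℤ, (z : ℝ) = A i j := fun i j => by
    have := h i j
    rw [Subring.mem_bot] at this
    exact this
  choose f hf using h1
  exact ⟨Matrix.of fun i j => f i j, by ext i j; simp [Matrix.map_apply, hf]⟩

lemma map_inj {m n : ℕ} {A B : Matrix (Fin m) (Fin n) ℤ}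
    (h : A.map (Int.castRingHom ℝ) = B.map (Int.castRingHom ℝ)) : A = B := by
  ext i j
  have h1 := congrFun (congrFun h i) j
  simpa using h1

/-- the chain of elementary equivalences gives a shift equivalence -/
lemma se_of_chain {X Y : Σ d : ℕ, Matrix (Fin d) (Fin d) ℝ} (A : Matrix (Fin X.1) (Fin X.1) ℤ)
    (hA : A.map (Int.castRingHom ℝ) = X.2)
    (h : Relation.ReflTransGen
          (fun X Y : (Σ d : ℕ, Matrix (Fin d) (Fin d) ℝ) =>
            ∃ (R : Matrix (Fin X.1) (Fin Y.1) ℝ) (T : Matrix (Fin Y.1) (Fin X.1) ℝ),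
              (∀ i j, R i j ∈ (⊥ : Subring ℝ)) ∧ (∀ i j, T i j ∈ (⊥ : Subring ℝ)) ∧
              X.2 = R * T ∧ Y.2 = T * R) X Y) :
    ∃ B : Matrix (Fin Y.1) (Fin Y.1) ℤ, B.map (Int.castRingHom ℝ) = Y.2 ∧ ShiftEquiv A B := by
  induction h with
  | refl => exact ⟨A, hA, 1, A, 1, le_rfl, by simp, by simp, by simp, by simp⟩
  | @tail Y Z _ hYZ ih =>
    obtain ⟨B, hB, R1, S1, l1, hl1, e1, e2, e3, e4⟩ := ih
    obtain ⟨R, T, hR, hT, h1, h2⟩ := hYZ
    obtain ⟨R', rfl⟩ := exists_int R hR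
    obtain ⟨T', rfl⟩ := exists_int T hT
    have hB' : B = R' * T' := map_inj (by rw [hB, h1, Matrix.map_mul])
    refine ⟨T' * R', by rw [Matrix.map_mul, h2], R1 * R', T' * S1, l1 + 1, by omega, ?_, ?_, ?_, ?_⟩
    · rw [← Matrix.mul_assoc, e1, hB']; simp only [Matrix.mul_assoc]
    · rw [Matrix.mul_assoc, e2, hB']; simp only [Matrix.mul_assoc]
    · calc R1 * R' * (T' * S1) = R1 * (R' * T') * S1 := by simp only [Matrix.mul_assoc]
        _ = (A * R1) * S1 := by rw [← hB', e1]
        _ = A ^ (l1 + 1) := by rw [Matrix.mul_assoc, e3, pow_succ']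
    · have hp : ∀ l : ℕ, T' * (R' * T') ^ l * R' = (T' * R') ^ (l + 1) := by
        intro l
        induction l with
        | zero => simp
        | succ l ih =>
          calc T' * (R' * T') ^ (l + 1) * R' = (T' * (R' * T') ^ l * R') * (T' * R') := by
                rw [pow_succ]; simp only [Matrix.mul_assoc]
            _ = _ := by rw [ih, ← pow_succ]
      calc T' * S1 * (R1 * R') = T' * (S1 * R1) * R' := by simp only [Matrix.mul_assoc]
        _ = T' * (R' * T') ^ l1 * R' := by rw [e4, hB']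
        _ = _ := hp l1

lemma map_real_complex {m : ℕ} (A : Matrix (Fin m) (Fin m) ℤ) :
    (A.map (Int.castRingHom ℝ)).map (fun x : ℝ => (x : ℂ)) = A.map (fun x : ℤ => (x : ℂ)) := by
  ext i j
  simp

/-- power sums of the nonzero spectrum are traces of powers -/
lemma tr_eq {m : ℕ} (A : Matrix (Fin m) (Fin m) ℤ) {k : ℕ} (hk : 0 < k) :
    tr (spec A) k = (((A.map (Int.castRingHom ℝ)) ^ k).trace : ℝ) := by
  have h1 := Pool.Agent.Helper605.trace_pow_roots m (A.map (fun x : ℤ => (x : ℂ))) k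
  have h2 : tr (spec A) k = ((A.map (fun x : ℤ => (x : ℂ))).charpoly.roots.map fun z => z ^ k).sum := by
    unfold tr spec
    generalize (A.map (fun x : ℤ => (x : ℂ))).charpoly.roots = s
    induction s using Multiset.induction_on with
    | empty => simp
    | cons a s ih =>
      by_cases ha : a = 0
      · subst ha
        have hn : ¬ ((0 : ℂ) ≠ 0) := by simp
        rw [Multiset.filter_cons_of_neg (p := fun z : ℂ => z ≠ 0) _ hn, ih]
        simp [hk.ne']
      · rw [Multiset.filter_cons_of_pos (p := fun z : ℂ => z ≠ 0) _ ha]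
        simp [ih]
  rw [h2, ← h1]
  have h3 : (A.map (fun x : ℤ => (x : ℂ))) = (A.map (Int.castRingHom ℝ)).map (algebraMap ℝ ℂ) := by
    rw [← map_real_complex]
    rfl
  rw [h3, ← Matrix.map_pow]
  simp [Matrix.trace]

lemma net_eq {m : ℕ} (A : Matrix (Fin m) (Fin m) ℤ) {n : ℕ} :
    (netTr (spec A) n).re = ∑ k ∈ n.divisors, ((ArithmeticFunction.moebius (n / k) : ℤ) : ℝ) *
      ((A.map (Int.castRingHom ℝ)) ^ k).trace := by
  unfold netTr
  have h : ∑ d ∈ n.divisors, ((ArithmeticFunction.moebius (n / d) : ℤ) : ℂ) * tr (spec A) d =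
      ((∑ k ∈ n.divisors, ((ArithmeticFunction.moebius (n / k) : ℤ) : ℝ) *
      ((A.map (Int.castRingHom ℝ)) ^ k).trace : ℝ) : ℂ) := by
    push_cast
    refine Finset.sum_congr rfl fun d hd => ?_
    rw [tr_eq A (Nat.pos_of_mem_divisors hd)]
  rw [h, Complex.ofReal_re]

/-- integer matrices of every size -/
lemma main {m : ℕ} (A : Matrix (Fin m) (Fin m) ℤ) (hP : CondP (spec A)) (hN : CondNT (spec A)) :
    ∃ (p : ℕ) (B : Matrix (Fin p) (Fin p) ℤ), Primitive B ∧ ShiftEquiv A B := by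
  obtain ⟨r, hr, hc, hz⟩ := hP
  have hr0 : (r : ℂ) ≠ 0 := by exact_mod_cast hr.ne'
  obtain ⟨p, B, hp, hB, hB0, ⟨k, hk, hBk⟩, hch⟩ := Pool.Agent.S01371.result ⊥ m
    (A.map (Int.castRingHom ℝ)) (fun i j => by
      rw [Subring.mem_bot]
      exact ⟨A i j, by simp⟩)
    ⟨r, hr, by
      rw [map_real_complex]
      rw [← hc, spec, Multiset.count_filter_of_pos (p := fun z : ℂ => z ≠ 0) hr0], by
      intro z hz1 hz2
      rw [map_real_complex] at hz1
      by_cases h0 : z = 0
      · rw [h0, norm_zero]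
        exact hr
      · exact hz z (Multiset.mem_filter.2 ⟨hz1, h0⟩) hz2⟩
    (fun _ n hn => by
      rw [← net_eq A]
      exact hN n hn)
    (fun h => absurd rfl h)
  obtain ⟨B', hB', hSE⟩ := se_of_chain (X := ⟨m, A.map (Int.castRingHom ℝ)⟩) (Y := ⟨p, B⟩) A rfl hch
  refine ⟨p, B', ⟨hp, fun i j => ?_, k, hk, fun i j => ?_⟩, hSE⟩
  · have h1 := hB0 i j
    have h2 : B = B'.map (Int.castRingHom ℝ) := hB'.symm
    rw [h2] at h1
    simpa using h1
  · have h1 := hBk i j
    have h2 : B = B'.map (Int.castRingHom ℝ) := hB'.symm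
    rw [h2, ← Matrix.map_pow] at h1
    simpa using h1

/-- Every `2 × 2` integer matrix with irrational eigenvalues whose nonzero spectrum satisfies (P) and
(NT) is shift equivalent over `ℤ` to a primitive integer matrix; so is every square integer matrix
whose nonzero spectrum satisfies (P) and (NT). -/
theorem result :
    (∀ A : Matrix (Fin 2) (Fin 2) ℤ,
      (∀ z ∈ (A.map (fun x : ℤ => (x : ℂ))).charpoly.roots, ∀ q : ℚ, z ≠ (q : ℂ)) →
      CondP (spec A) → CondNT (spec A) →
      ∃ (p : ℕ) (B : Matrix (Fin p) (Fin p) ℤ), Primitive B ∧ ShiftEquiv A B) ∧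
    (∀ (m : ℕ) (A : Matrix (Fin m) (Fin m) ℤ), CondP (spec A) → CondNT (spec A) →
      ∃ (p : ℕ) (B : Matrix (Fin p) (Fin p) ℤ), Primitive B ∧ ShiftEquiv A B) :=
  ⟨fun A _ hP hN => main A hP hN, fun _ A hP hN => main A hP hN⟩

end Pool.Agent.Results.MP_873b83_al.WeakSpectralConjecture
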